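import Mathlib
import Pool.Agent.P.MP_553766_co.Mixed

set_option autoImplicit false

namespace Pool.Agent.Results.MP_553766_co.FewPairs

open Pool.Agent.P.MP_553766_co

/-- The fractional Berge-Furedi bound under a local condition on the edges of size two.
For an edge f let rho f be the sum over the points v of f of the number of edges of size at least
three through v. If T is at least the maximum over vertices v of the size of the union of all edges
containing v, and for every edge e of size two and every point u of e the sum of 1 / (T - rho f)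
over the edges f of size two through u plus 1 / (T - rho e) is at most 1, then there is a fractional
edge colouring by matchings of total weight at most T. -/
theorem result :
    ∀ (V : Type) [Fintype V] [DecidableEq V] (E : Finset (Finset V)),
      (∀ e ∈ E, e.Nonempty) →
      (∀ e ∈ E, ∀ f ∈ E, e ≠ f → (e ∩ f).card ≤ 1) →
      ∀ T : ℝ,
      ((Finset.univ.sup (fun v : V => ((E.filter (fun e => v ∈ e)).biUnion id).card) : ℕ) : ℝ)
        ≤ T →
      (∀ e ∈ E, e.card = 2 → ∀ u ∈ e,
        ∑ f ∈ E.filter (fun f => f.card = 2 ∧ u ∈ f),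
            1 / (T - ∑ v ∈ f, ((E.filter (fun g => 3 ≤ g.card ∧ v ∈ g)).card : ℝ)) +
          1 / (T - ∑ v ∈ e, ((E.filter (fun g => 3 ≤ g.card ∧ v ∈ g)).card : ℝ)) ≤ 1) →
      ∃ w : Finset (Finset V) → ℝ,
        (∀ M, 0 ≤ w M) ∧
        (∀ M, w M ≠ 0 → M ⊆ E ∧ (M : Set (Finset V)).PairwiseDisjoint id) ∧
        (∀ e ∈ E, 1 ≤ ∑ M ∈ E.powerset.filter (fun M => e ∈ M), w M) ∧
        ∑ M ∈ E.powerset, w M ≤ T := by
  intro V _ _ E hne hlin T hT hH
  obtain ⟨w, h1, h3, h4, h5⟩ := mixed E hne hlin
    (Finset.univ.sup (fun v : V => ((E.filter (fun e => v ∈ e)).biUnion id).card))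
    (fun v => Finset.le_sup (f := fun v : V => ((E.filter (fun e => v ∈ e)).biUnion id).card)
      (Finset.mem_univ v)) T hT hH
  refine ⟨w, h1, fun M hM => ⟨(h3 M hM).1, fun e he f hf hef => (h3 M hM).2 e he f hf hef⟩,
    fun e he => (h4 e he).trans (le_of_eq ?_), le_trans ?_ h5⟩
  · rw [Finset.sum_filter]
    symm
    rw [← Finset.sum_subset (Finset.subset_univ E.powerset)]
    · exact Finset.sum_congr rfl fun M _ => by simp [ind]
    · intro M _ hM
      by_cases h : w M = 0
      · simp [h]
      · exact absurd (Finset.mem_powerset.2 (h3 M h).1) hM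
  · exact Finset.sum_le_sum_of_subset_of_nonneg (Finset.subset_univ _) fun M _ _ => h1 M

end Pool.Agent.Results.MP_553766_co.FewPairs
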