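import Mathlib
import Pool.Agent.P.MP_553766_co.LAll

set_option autoImplicit false

namespace Pool.Agent.Results.MP_553766_co.LargeDegree

open Pool.Agent.P.MP_553766_co

/-- The fractional Berge-Furedi bound for all large degrees. There is an absolute constant D0 such
that every finite linear hypergraph with nonempty edges has a fractional edge colouring by
matchings of total weight at most the larger of D0 and the maximum over vertices v of the size of
the union of all edges containing v. -/
theorem result :
    ∃ D0 : ℕ, ∀ (V : Type) [Fintype V] [DecidableEq V] (E : Finset (Finset V)),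
      (∀ e ∈ E, e.Nonempty) →
      (∀ e ∈ E, ∀ f ∈ E, e ≠ f → (e ∩ f).card ≤ 1) →
      ∃ w : Finset (Finset V) → ℝ,
        (∀ M, 0 ≤ w M) ∧
        (∀ M, w M ≠ 0 → M ⊆ E ∧ (M : Set (Finset V)).PairwiseDisjoint id) ∧
        (∀ e ∈ E, 1 ≤ ∑ M ∈ E.powerset.filter (fun M => e ∈ M), w M) ∧
        ∑ M ∈ E.powerset, w M ≤
          ((max D0 (Finset.univ.sup
            (fun v : V => ((E.filter (fun e => v ∈ e)).biUnion id).card)) : ℕ) : ℝ) := by
  obtain ⟨D0, hD0⟩ := Lg.large
  refine ⟨D0, fun V _ _ E hne hlin => ?_⟩
  obtain ⟨w, h1, h3, h4, h5⟩ := hD0 V E hne hlin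
    (max D0 (Finset.univ.sup (fun v : V => ((E.filter (fun e => v ∈ e)).biUnion id).card)))
    (le_max_left _ _)
    (fun v => le_trans (Finset.le_sup
      (f := fun v : V => ((E.filter (fun e => v ∈ e)).biUnion id).card) (Finset.mem_univ v))
      (le_max_right _ _))
  refine ⟨w, h1, fun M hM => ⟨(h3 M hM).1, fun e he f hf hef => (h3 M hM).2 e he f hf hef⟩,
    fun e he => (h4 e he).trans (le_of_eq ?_), le_trans ?_ h5⟩
  · rw [Finset.sum_filter]
    symm
    rw [← Finset.sum_subset (Finset.subset_univ E.powerset)]
    · exact Finset.sum_congr rfl fun M _ => by simp [ind]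
    · intro M _ hM
      by_cases h : w M = 0
      · simp [h]
      · exact absurd (Finset.mem_powerset.2 (h3 M h).1) hM
  · exact Finset.sum_le_sum_of_subset_of_nonneg (Finset.subset_univ _) fun M _ _ => h1 M

end Pool.Agent.Results.MP_553766_co.LargeDegree
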